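import Pool.Agent.Lib.MP_d0f9e0_co.AR81.Frob
import Pool.Agent.Lib.MP_d0f9e0_co.GH.Defs

/-!
The Frobenius congruence for the class function of a lattice.
-/

set_option autoImplicit false

open Finset

namespace AR81

open Pool.MP_d0f9e0_co.SH Pool.MP_d0f9e0_co.GH

variable {L : AddSubgroup V} {B : V ≃+ V}

/-- The automorphism of `V / L` induced by `B`. -/
noncomputable def ind (B : V ≃+ V) (L : AddSubgroup V) (hL : ∀ p, B p ∈ L ↔ p ∈ L) :
    V ⧸ L ≃+ V ⧸ L :=
  QuotientAddGroup.congr L L B (by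
    ext p
    rw [AddSubgroup.mem_map]
    constructor
    · rintro ⟨x, hx, rfl⟩
      exact (hL x).mpr hx
    · intro hp
      refine ⟨B.symm p, ?_, B.apply_symm_apply p⟩
      rw [← hL, B.apply_symm_apply]
      exact hp)

theorem ind_mk (hL : ∀ p, B p ∈ L ↔ p ∈ L) (p : V) :
    ind B L hL (QuotientAddGroup.mk p) = QuotientAddGroup.mk (B p) := rfl

theorem ind_iter (hL : ∀ p, B p ∈ L ↔ p ∈ L) (j : ℕ) (p : V) :
    ((ind B L hL)^[j]) (QuotientAddGroup.mk p) = QuotientAddGroup.mk ((pw B j) p) := by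
  induction j with
  | zero => rfl
  | succ j ih => rw [Function.iterate_succ_apply', ih, ind_mk, pow_apply_succ]

theorem mem_fib {x : V ⧸ L} {p : V} : p ∈ fib L x ↔ (QuotientAddGroup.mk p : V ⧸ L) = x := Iff.rfl

theorem fib_per {x : V ⧸ L} {l : V} (hl : l ∈ L) : Per (fib L x) l := by
  intro p
  rw [mem_fib, mem_fib]
  have h : (QuotientAddGroup.mk (p + l) : V ⧸ L) = QuotientAddGroup.mk p := by
    rw [QuotientAddGroup.mk_add, (QuotientAddGroup.eq_zero_iff l).mpr hl, add_zero]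
  rw [h]

theorem fib_disc (hL : Disc (L : Set V)) (x : V ⧸ L) : Disc (fib L x) := by
  obtain ⟨N, hN, h⟩ := hL
  obtain ⟨p0, rfl⟩ := QuotientAddGroup.mk_surjective x
  refine ⟨N * (p0.1.den * p0.2.den), by positivity, ?_⟩
  intro p hp
  rw [mem_fib, eq_comm, QuotientAddGroup.eq] at hp
  obtain ⟨a, b, ha, hb⟩ := h _ hp
  simp only [Prod.fst_add, Prod.snd_add, Prod.fst_neg, Prod.snd_neg] at ha hb
  have e1 : (p0.1.den : ℚ) * p0.1 = p0.1.num := by
    rw [mul_comm]; exact Rat.mul_den_eq_num _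
  have e2 : (p0.2.den : ℚ) * p0.2 = p0.2.num := by
    rw [mul_comm]; exact Rat.mul_den_eq_num _
  refine ⟨p0.1.den * p0.2.den * a + N * p0.2.den * p0.1.num,
    p0.1.den * p0.2.den * b + N * p0.1.den * p0.2.num, ?_, ?_⟩
  · push_cast
    linear_combination ((p0.1.den : ℚ) * p0.2.den) * ha + ((N : ℚ) * p0.2.den) * e1
  · push_cast
    linear_combination ((p0.1.den : ℚ) * p0.2.den) * hb + ((N : ℚ) * p0.1.den) * e2

theorem fib_inv (hL : ∀ p, B p ∈ L ↔ p ∈ L) {x : V ⧸ L} (hx : ind B L hL x = x) :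
    Inv B (fib L x) := by
  intro p
  rw [mem_fib, mem_fib, ← ind_mk hL]
  constructor
  · intro h
    apply (ind B L hL).injective
    rw [h, hx]
  · intro h
    rw [h, hx]

theorem fib_inv_pow (hL : ∀ p, B p ∈ L ↔ p ∈ L) {J : ℕ} {x : V ⧸ L}
    (hx : ((ind B L hL)^[J]) x = x) : Inv (pw B J) (fib L x) := by
  intro p
  rw [mem_fib, mem_fib, ← ind_iter hL]
  constructor
  · intro h
    apply (ind B L hL).injective.iterate J
    rw [h, hx]
  · intro h
    rw [h, hx]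

/-- Multiplication by `q`. -/
noncomputable def mulq (q : ℕ) (hq : q ≠ 0) : V ≃+ V :=
  DistribMulAction.toAddEquiv V (Units.mk0 (q : ℚ) (Nat.cast_ne_zero.mpr hq))

theorem mulq_apply {q : ℕ} (hq : q ≠ 0) (p : V) : mulq q hq p = (q : ℚ) • p := rfl

theorem mulq_apply' {q : ℕ} (hq : q ≠ 0) (p : V) : mulq q hq p = q • p := by
  rw [mulq_apply, Nat.cast_smul_eq_nsmul]

variable {S : ℝ → ℝ → ℝ → ℝ} {θ η : ℝ}

/-- Invariance of the higher level function. -/
theorem cL_ind (h : CS S) (hθ : Irrational θ) (hB : Hyp θ B η) (hL : ∀ p, B p ∈ L ↔ p ∈ L)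
    (hd : Disc (L : Set V)) {v : V} (hvL : v ∈ L) (hv : 0 < ell θ v) (hdv : 0 < det v (B v))
    {J : ℕ} (hJ : 0 < J) {x : V ⧸ L} (hx : ((ind B L hL)^[J]) x = x) :
    cL S θ (pw B J) L (ind B L hL x) = cL S θ (pw B J) L x := by
  unfold cL
  refine cls_map h hθ hθ (hB.pow J) (hB.pow J) (fib_disc hd _) (fib_disc hd _)
    (fib_inv_pow hL hx) B ?_ one_pos (fun p q => by rw [one_mul]; exact hB.det_eq p q) hB.pos
    hB.ell_eq ?_ (v := v) ⟨fib_per hvL, hv, pow_det_pos hB hv hdv hJ⟩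
  · intro p
    rw [mem_fib, mem_fib, ← ind_mk hL]
    exact (ind B L hL).injective.eq_iff
  · intro p
    rw [← pow_apply_succ, pow_apply_succ']

/-- The multiplication formula for the higher level function. -/
theorem cL_mul (h : CS S) (hθ : Irrational θ) (hB : Hyp θ B η) (hL : ∀ p, B p ∈ L ↔ p ∈ L)
    (hd : Disc (L : Set V)) {v : V} (hvL : v ∈ L) (hv : 0 < ell θ v) (hdv : 0 < det v (B v))
    {J : ℕ} (hJ : 0 < J) {q : ℕ} (hq : q ≠ 0) (Vq : Finset (V ⧸ L))
    (hVq : ∀ t, t ∈ Vq ↔ q • t = 0) (h1 : ∀ t ∈ Vq, ((ind B L hL)^[J]) t = t) {x : V ⧸ L}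
    (hx : ((ind B L hL)^[J]) x = x) :
    cL S θ (pw B J) L (q • x) = ∏ t ∈ Vq, cL S θ (pw B J) L (x + t) := by
  have hiter : ∀ (j : ℕ) (y z : V ⧸ L), ((ind B L hL)^[j]) (y + z) =
      ((ind B L hL)^[j]) y + ((ind B L hL)^[j]) z := by
    intro j
    induction j with
    | zero => intro y z; rfl
    | succ j ih =>
      intro y z
      rw [Function.iterate_succ_apply', ih, map_add,
        ← Function.iterate_succ_apply' (ind B L hL) j y,
        ← Function.iterate_succ_apply' (ind B L hL) j z]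
  have hxt : ∀ t ∈ Vq, ((ind B L hL)^[J]) (x + t) = x + t := fun t ht => by
    rw [hiter, hx, h1 t ht]
  have hmem : ∀ p : V, (QuotientAddGroup.mk (q • p) : V ⧸ L) = q • x ↔
      ∃ t ∈ Vq, p ∈ fib L (x + t) := by
    intro p
    constructor
    · intro h2
      refine ⟨QuotientAddGroup.mk p - x, ?_, ?_⟩
      · rw [hVq, nsmul_sub, ← QuotientAddGroup.mk_nsmul, h2, sub_self]
      · rw [mem_fib]; abel
    · rintro ⟨t, ht, h2⟩
      rw [mem_fib] at h2
      rw [QuotientAddGroup.mk_nsmul, h2, nsmul_add, (hVq t).mp ht, add_zero]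
  set X' : Set V := {p | (QuotientAddGroup.mk (q • p) : V ⧸ L) = q • x} with hX'
  have hX'd : Disc X' := by
    obtain ⟨N, hN, h2⟩ := fib_disc hd (q • x)
    refine ⟨N * q, Nat.mul_pos hN (Nat.pos_of_ne_zero hq), ?_⟩
    intro p hp
    obtain ⟨a, b, ha, hb⟩ := h2 (q • p) hp
    refine ⟨a, b, ?_, ?_⟩
    · rw [← ha]; push_cast; simp [mul_assoc]
    · rw [← hb]; push_cast; simp [mul_assoc]
  have hX'I : Inv (pw B J) X' := by
    intro p
    have h2 : ∀ r : V, r ∈ X' ↔ (q • r) ∈ fib L (q • x) := fun r => Iff.rfl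
    rw [h2, h2, ← map_nsmul]
    refine fib_inv_pow hL ?_ _
    have h3 : ∀ (n : ℕ) (y : V ⧸ L), ((ind B L hL)^[J]) y = y →
        ((ind B L hL)^[J]) (n • y) = n • y := by
      intro n y hy
      induction n with
      | zero =>
        rw [zero_nsmul]
        have h4 : ∀ j : ℕ, ((ind B L hL)^[j]) (0 : V ⧸ L) = 0 := by
          intro j
          induction j with
          | zero => rfl
          | succ j ih => rw [Function.iterate_succ_apply', ih, map_zero]
        exact h4 J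
      | succ n ih => rw [succ_nsmul, hiter, ih, hy]
    exact h3 q x hx
  have hadm : ∀ {X : Set V}, Per X v → Adm θ (pw B J) X v := fun hp =>
    ⟨hp, hv, pow_det_pos hB hv hdv hJ⟩
  have hX'p : Per X' v := by
    intro p
    have h2 : (QuotientAddGroup.mk (q • (p + v)) : V ⧸ L) = QuotientAddGroup.mk (q • p) := by
      rw [smul_add, QuotientAddGroup.mk_add,
        (QuotientAddGroup.eq_zero_iff (q • v)).mpr (AddSubgroup.nsmul_mem _ hvL q), add_zero]
    change (QuotientAddGroup.mk (q • (p + v)) : V ⧸ L) = q • x ↔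
      (QuotientAddGroup.mk (q • p) : V ⧸ L) = q • x
    rw [h2]
  have e1 : cls S θ (pw B J) (fib L (q • x)) = cls S θ (pw B J) X' := by
    refine cls_map h hθ hθ (hB.pow J) (hB.pow J) hX'd (fib_disc hd _) hX'I (mulq q hq) ?_
      (δ := (q : ℚ) ^ 2) (by positivity) ?_ (l := (q : ℝ)) (by positivity) ?_ ?_ (hadm hX'p)
    · intro p
      rw [mulq_apply']
      exact Iff.rfl
    · intro p r
      rw [mulq_apply, mulq_apply]
      simp only [det, Prod.smul_fst, Prod.smul_snd, smul_eq_mul]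
      ring
    · intro p
      rw [mulq_apply, ell_smul]
      push_cast
      rfl
    · intro p
      rw [mulq_apply', mulq_apply', map_nsmul]
  unfold cL
  rw [e1]
  exact cls_union h hθ (hB.pow J) Vq (fun t => fib L (x + t)) X' (fun t _ => fib_disc hd _) hX'd
    (fun t ht => fib_inv_pow hL (hxt t ht)) (fun p => hmem p)
    (fun t _ t' _ p hp hp' => by
      rw [mem_fib] at hp hp'
      exact add_left_cancel (hp.symm.trans hp'))
    hv (pow_det_pos hB hv hdv hJ) (fun t _ => fib_per hvL)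

/-- **The Frobenius congruence** for the class function of a lattice. -/
theorem frobSH {Γ₀ : Type*} [LinearOrderedCommGroupWithZero Γ₀] (w : Valuation ℂ Γ₀) (h : DS S)
    (hθ : Irrational θ) (hB : Hyp θ B η) (hL : ∀ p, B p ∈ L ↔ p ∈ L) (hd : Disc (L : Set V)) {v : V}
    (hvL : v ∈ L) (hv : 0 < ell θ v) (hdv : 0 < det v (B v)) {q J : ℕ} (hq : 1 < q) (hJ : 0 < J)
    (Vq : Finset (V ⧸ L)) (hVq : ∀ t, t ∈ Vq ↔ q • t = 0) (hcard : Vq.card = q ^ 2)
    (h1 : ∀ t ∈ Vq, ((ind B L hL)^[J]) t = t)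
    (h2 : ∀ j, 0 < j → j < J → ∀ t ∈ Vq, t ≠ 0 → ((ind B L hL)^[j]) t ≠ t)
    (hcong : ∀ x : V ⧸ L, ind B L hL x = x → ∀ t : V ⧸ L, q • t = 0 →
      w (((cL S θ (pw B J) L (x + t) : ℂ) / cL S θ (pw B J) L x) ^ 2 - 1) < 1)
    {x : V ⧸ L} (hx : ind B L hL x = x) {N : ℕ} (hN : N • x = 0) (hqN : q.Coprime N) :
    w (cL S θ B L x : ℂ) = 1 ∧
      w ((cL S θ B L (q • x) : ℂ) ^ 2 - ((cL S θ B L x : ℂ) ^ 2) ^ q ^ 2) < 1 := by
  refine frob w (ind B L hL) hq hJ Vq hVq hcard h1 h2 (cL S θ (pw B J) L) (cL S θ B L)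
    (fun y => cls_pos h hθ (hB.pow J) _) (fun y => cls_pos h hθ hB _) ?_ ?_ ?_ hcong x hx hN hqN
  · intro y hy
    exact cls_pow h.cs hθ hB (fib_disc hd y) (fib_inv hL hy) ⟨fib_per hvL, hv, hdv⟩ hJ
  · intro y hy
    exact cL_ind h.cs hθ hB hL hd hvL hv hdv hJ hy
  · intro y hy
    exact cL_mul h.cs hθ hB hL hd hvL hv hdv hJ (by omega) Vq hVq h1 hy

end AR81
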