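import Pool.Agent.Lib.MP_d0f9e0_co.GH.Grp
import Pool.Agent.Lib.MP_d0f9e0_co.AR81.Sh

/-!
The elements killed by `q` in `V / L` for a lattice `L`.
-/

set_option autoImplicit false

open Finset

namespace AR81

open Pool.MP_d0f9e0_co.SH Pool.MP_d0f9e0_co.GH

/-- The lattice has bounded denominators. -/
theorem lat_disc {L : AddSubgroup V} {δ : ℚ} {u w : V} (h : Lat L δ u w) : Disc (L : Set V) := by
  have e : ∀ r : ℚ, (r.den : ℚ) * r = r.num := fun r => by rw [mul_comm]; exact Rat.mul_den_eq_num _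
  refine ⟨u.1.den * u.2.den * (w.1.den * w.2.den), by positivity, ?_⟩
  intro p hp
  rw [h.eq, SetLike.mem_coe, AddSubgroup.mem_closure_pair] at hp
  obtain ⟨m, n, rfl⟩ := hp
  rw [← Int.cast_smul_eq_zsmul ℚ, ← Int.cast_smul_eq_zsmul ℚ]
  refine ⟨m * (u.1.num * u.2.den * (w.1.den * w.2.den)) + n * (w.1.num * w.2.den * (u.1.den * u.2.den)),
    m * (u.2.num * u.1.den * (w.1.den * w.2.den)) + n * (w.2.num * w.1.den * (u.1.den * u.2.den)),
    ?_, ?_⟩
  · simp only [Prod.fst_add, Prod.smul_fst, smul_eq_mul]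
    push_cast
    linear_combination ((m : ℚ) * u.2.den * (w.1.den * w.2.den)) * e u.1 +
      ((n : ℚ) * w.2.den * (u.1.den * u.2.den)) * e w.1
  · simp only [Prod.snd_add, Prod.smul_snd, smul_eq_mul]
    push_cast
    linear_combination ((m : ℚ) * u.1.den * (w.1.den * w.2.den)) * e u.2 +
      ((n : ℚ) * w.1.den * (u.1.den * u.2.den)) * e w.2

theorem det_nsmul_left (q : ℕ) (p w : V) : det (q • p) w = q * det p w := by
  rw [← Nat.cast_smul_eq_nsmul ℚ]
  simp only [det, Prod.smul_fst, Prod.smul_snd, smul_eq_mul]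
  ring

theorem det_nsmul_right (q : ℕ) (u p : V) : det u (q • p) = q * det u p := by
  rw [← Nat.cast_smul_eq_nsmul ℚ]
  simp only [det, Prod.smul_fst, Prod.smul_snd, smul_eq_mul]
  ring

/-- The elements killed by `q`. -/
theorem exists_Vq {L : AddSubgroup V} {δ : ℚ} {u w : V} (h : Lat L δ u w) {q : ℕ} (hq : 0 < q) :
    ∃ Vq : Finset (V ⧸ L), (∀ t, t ∈ Vq ↔ q • t = 0) ∧ Vq.card = q ^ 2 := by
  classical
  have hq0 : (q : ℚ) ≠ 0 := Nat.cast_ne_zero.mpr hq.ne'
  have hδ : δ ≠ 0 := h.ne
  have hdet := h.det_eq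
  let P : ℕ × ℕ → V := fun i => ((i.1 : ℚ) / q) • u + ((i.2 : ℚ) / q) • w
  let φ : ℕ × ℕ → V ⧸ L := fun i => QuotientAddGroup.mk (P i)
  have hPd1 : ∀ i, det (P i) w = (i.1 : ℚ) / q * δ := by
    intro i
    simp only [P, det_add_left, ← hdet]
    simp only [det, Prod.smul_fst, Prod.smul_snd, smul_eq_mul]
    ring
  have hPd2 : ∀ i, det u (P i) = (i.2 : ℚ) / q * δ := by
    intro i
    simp only [P, det_add_right, ← hdet]
    simp only [det, Prod.smul_fst, Prod.smul_snd, smul_eq_mul]
    ring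
  have hinj : Set.InjOn φ ((range q ×ˢ range q : Finset (ℕ × ℕ)) : Set (ℕ × ℕ)) := by
    intro i hi j hj hij
    rw [mem_coe, mem_product, mem_range, mem_range] at hi hj
    have h1 : -P i + P j ∈ L := QuotientAddGroup.eq.mp hij
    rw [h.mem_iff] at h1
    obtain ⟨⟨m, hm⟩, ⟨n, hn⟩⟩ := h1
    rw [neg_add_eq_sub, det_sub_left, hPd1, hPd1] at hm
    rw [neg_add_eq_sub, det_sub_right, hPd2, hPd2] at hn
    have hm' : (j.1 : ℚ) - i.1 = m * q := by
      have : ((j.1 : ℚ) - i.1) / q * δ = m * δ := by rw [← hm]; ring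
      have := mul_right_cancel₀ hδ this
      field_simp at this
      linarith
    have hn' : (j.2 : ℚ) - i.2 = n * q := by
      have : ((j.2 : ℚ) - i.2) / q * δ = n * δ := by rw [← hn]; ring
      have := mul_right_cancel₀ hδ this
      field_simp at this
      linarith
    have hm2 : (j.1 : ℤ) - i.1 = m * q := by exact_mod_cast hm'
    have hn2 : (j.2 : ℤ) - i.2 = n * q := by exact_mod_cast hn'
    have key : ∀ a b : ℕ, a < q → b < q → ∀ m : ℤ, (b : ℤ) - a = m * q → a = b := by
      intro a b ha hb m hm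
      have h2 := Int.eq_zero_of_abs_lt_dvd (m := (q : ℤ)) (x := (b : ℤ) - a) ⟨m, by rw [hm]; ring⟩
        (by rw [abs_lt]; constructor <;> omega)
      omega
    exact Prod.ext (key _ _ hi.1 hj.1 m hm2) (key _ _ hi.2 hj.2 n hn2)
  refine ⟨(range q ×ˢ range q).image φ, ?_, ?_⟩
  · intro t
    rw [mem_image]
    constructor
    · rintro ⟨i, -, rfl⟩
      have h1 : (q : ℕ) • P i ∈ L := by
        rw [h.mem_iff]
        refine ⟨⟨i.1, ?_⟩, ⟨i.2, ?_⟩⟩
        · rw [det_nsmul_left, hPd1]
          push_cast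
          field_simp
        · rw [det_nsmul_right, hPd2]
          push_cast
          field_simp
      simp only [φ]
      rw [← QuotientAddGroup.mk_nsmul]
      exact (QuotientAddGroup.eq_zero_iff _).mpr h1
    · intro ht
      obtain ⟨p, rfl⟩ := QuotientAddGroup.mk_surjective t
      rw [← QuotientAddGroup.mk_nsmul] at ht
      have h1 : (q : ℕ) • p ∈ L := (QuotientAddGroup.eq_zero_iff _).mp ht
      have h2 := h1
      rw [h.mem_iff] at h2
      obtain ⟨⟨m, hm⟩, ⟨n, hn⟩⟩ := h2
      rw [det_nsmul_left] at hm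
      rw [det_nsmul_right] at hn
      have hqz : (0 : ℤ) < q := by exact_mod_cast hq
      refine ⟨((m % q).toNat, (n % q).toNat), ?_, ?_⟩
      · rw [mem_product, mem_range, mem_range]
        have h3 := Int.emod_lt_of_pos m hqz
        have h4 := Int.emod_nonneg m hqz.ne'
        have h5 := Int.emod_lt_of_pos n hqz
        have h6 := Int.emod_nonneg n hqz.ne'
        constructor <;> dsimp only <;> omega
      · simp only [φ]
        rw [QuotientAddGroup.eq, h.mem_iff]
        have h4 := Int.emod_nonneg m hqz.ne'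
        have h6 := Int.emod_nonneg n hqz.ne'
        have f1 : (((m % q).toNat : ℕ) : ℚ) = m - q * (m / q : ℤ) := by
          have h7 : (((m % q).toNat : ℕ) : ℤ) = m - q * (m / q) := by
            rw [Int.toNat_of_nonneg h4, Int.emod_def]
          exact_mod_cast h7
        have f2 : (((n % q).toNat : ℕ) : ℚ) = n - q * (n / q : ℤ) := by
          have h7 : (((n % q).toNat : ℕ) : ℤ) = n - q * (n / q) := by
            rw [Int.toNat_of_nonneg h6, Int.emod_def]
          exact_mod_cast h7
        refine ⟨⟨m / q, ?_⟩, ⟨n / q, ?_⟩⟩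
        · rw [neg_add_eq_sub, det_sub_left, hPd1]
          dsimp only
          rw [f1]
          field_simp
          linear_combination hm
        · rw [neg_add_eq_sub, det_sub_right, hPd2]
          dsimp only
          rw [f2]
          field_simp
          linear_combination hn
  · rw [card_image_of_injOn hinj, card_product, card_range, sq]

end AR81
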