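import Pool.Agent.Lib.MP_d0f9e0_co.AR81.Orb

/-!
The Frobenius congruence at the base level from the invariance of the higher level function under the
elements killed by `q` (modulo principal units).
-/

open Finset

namespace AR81

section unit

variable {K Γ₀ : Type*} [Field K] [LinearOrderedCommGroupWithZero Γ₀] (w : Valuation K Γ₀)

/-- Principal units. -/
def Pu (a : K) : Prop := w (a - 1) < 1

variable {w}

theorem Pu.val {a : K} (h : Pu w a) : w a = 1 := by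
  have e : w (1 + (a - 1)) = w 1 := Valuation.map_add_eq_of_lt_left w (by rw [map_one]; exact h)
  rw [add_sub_cancel, map_one] at e
  exact e

theorem Pu.ne_zero {a : K} (h : Pu w a) : a ≠ 0 := by
  intro h0
  have := h.val
  rw [h0, map_zero] at this
  exact zero_ne_one this

theorem Pu.one : Pu w (1 : K) := by
  unfold Pu
  rw [sub_self, map_zero]
  exact zero_lt_one

theorem Pu.mul {a b : K} (ha : Pu w a) (hb : Pu w b) : Pu w (a * b) := by
  unfold Pu
  have e : a * b - 1 = a * (b - 1) + (a - 1) := by ring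
  rw [e]
  refine (w.map_add _ _).trans_lt (max_lt ?_ ha)
  rw [map_mul, ha.val, one_mul]
  exact hb

theorem Pu.inv {a : K} (ha : Pu w a) : Pu w a⁻¹ := by
  unfold Pu
  have e : a⁻¹ - 1 = -((a - 1) * a⁻¹) := by
    have := ha.ne_zero
    field_simp
    ring
  rw [e, Valuation.map_neg, map_mul, map_inv₀, ha.val, inv_one, mul_one]
  exact ha

theorem Pu.pow {a : K} (ha : Pu w a) (n : ℕ) : Pu w (a ^ n) := by
  induction n with
  | zero => rw [pow_zero]; exact Pu.one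
  | succ n ih => rw [pow_succ]; exact ih.mul ha

theorem Pu.prod {ι : Type*} (s : Finset ι) (f : ι → K) (h : ∀ i ∈ s, Pu w (f i)) :
    Pu w (∏ i ∈ s, f i) := by
  classical
  induction s using Finset.induction_on with
  | empty => rw [prod_empty]; exact Pu.one
  | insert a s ha ih =>
    rw [prod_insert ha]
    exact (h _ (mem_insert_self _ _)).mul (ih fun i hi => h i (mem_insert_of_mem hi))

/-- In a linearly ordered group an element equal to a higher power of itself is `1`. -/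
theorem eq_one_of_pow {g : Γ₀} (hg : g ≠ 0) {k : ℕ} (hk : 1 < k) (h : g ^ k = g) : g = 1 := by
  have h1 : g ^ (k - 1) = 1 := by
    have e : g ^ k = g ^ (k - 1) * g := by
      rw [← pow_succ]; congr 1; omega
    rw [e] at h
    exact mul_right_cancel₀ hg (by rw [h, one_mul])
  exact (pow_eq_one_iff_of_nonneg zero_le (by omega)).mp h1

end unit

section frob

variable {T : Type*} [AddCommGroup T] {Γ₀ : Type*} [LinearOrderedCommGroupWithZero Γ₀]

/-- **The Frobenius congruence**, up to principal units. -/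
theorem frob_pu (w : Valuation ℂ Γ₀) (b : T ≃+ T) {q J : ℕ} (hJ : 0 < J) (Vq : Finset T)
    (hVq : ∀ t, t ∈ Vq ↔ q • t = 0) (hcard : Vq.card = q ^ 2)
    (h1 : ∀ t ∈ Vq, (b^[J]) t = t) (h2 : ∀ j, 0 < j → j < J → ∀ t ∈ Vq, t ≠ 0 → (b^[j]) t ≠ t)
    (cA cB : T → ℝ) (hA : ∀ x, 0 < cA x) (hB : ∀ x, 0 < cB x)
    (hT : ∀ x, b x = x → cA x = cB x ^ J) (hinv : ∀ x, (b^[J]) x = x → cA (b x) = cA x)
    (hD : ∀ x, (b^[J]) x = x → cA (q • x) = ∏ t ∈ Vq, cA (x + t))
    (hcong : ∀ x, b x = x → ∀ t, q • t = 0 → Pu w (((cA (x + t) : ℂ) / cA x) ^ 2))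
    (x : T) (hx : b x = x) :
    Pu w ((cB (q • x) : ℂ) ^ 2 / ((cB x : ℂ) ^ 2) ^ q ^ 2) := by
  obtain ⟨s, hs, hsJ, hmul⟩ := base_mult b hJ Vq hVq hcard h1 h2 cA cB hA hB hT hinv hD
  have hAne : ∀ y, (cA y : ℂ) ≠ 0 := fun y => Complex.ofReal_ne_zero.mpr (hA y).ne'
  have hBne : ∀ y, (cB y : ℂ) ≠ 0 := fun y => Complex.ofReal_ne_zero.mpr (hB y).ne'
  have h3 := hmul x hx
  have h4 : (cB (q • x) : ℂ) ^ 2 / ((cB x : ℂ) ^ 2) ^ q ^ 2 =
      ∏ t ∈ s, ((cA (x + t) : ℂ) / cA x) ^ 2 := by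
    rw [prod_pow, prod_div_distrib, prod_const, hT x hx, h3, ← hsJ]
    push_cast
    have := hBne x
    field_simp
    ring
  rw [h4]
  exact Pu.prod _ _ fun t ht => hcong x hx t ((hVq t).mp (hs t ht))

/-- **The Frobenius congruence** for points of order prime to `q`. -/
theorem frob (w : Valuation ℂ Γ₀) (b : T ≃+ T) {q J : ℕ} (hq : 1 < q) (hJ : 0 < J) (Vq : Finset T)
    (hVq : ∀ t, t ∈ Vq ↔ q • t = 0) (hcard : Vq.card = q ^ 2)
    (h1 : ∀ t ∈ Vq, (b^[J]) t = t) (h2 : ∀ j, 0 < j → j < J → ∀ t ∈ Vq, t ≠ 0 → (b^[j]) t ≠ t)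
    (cA cB : T → ℝ) (hA : ∀ x, 0 < cA x) (hB : ∀ x, 0 < cB x)
    (hT : ∀ x, b x = x → cA x = cB x ^ J) (hinv : ∀ x, (b^[J]) x = x → cA (b x) = cA x)
    (hD : ∀ x, (b^[J]) x = x → cA (q • x) = ∏ t ∈ Vq, cA (x + t))
    (hcong : ∀ x, b x = x → ∀ t, q • t = 0 → Pu w (((cA (x + t) : ℂ) / cA x) ^ 2))
    (x : T) (hx : b x = x) {N : ℕ} (hN : N • x = 0) (hqN : q.Coprime N) :
    w (cB x : ℂ) = 1 ∧ w ((cB (q • x) : ℂ) ^ 2 - ((cB x : ℂ) ^ 2) ^ q ^ 2) < 1 := by
  have hfp : ∀ y, b y = y → Pu w ((cB (q • y) : ℂ) ^ 2 / ((cB y : ℂ) ^ 2) ^ q ^ 2) := fun y hy =>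
    frob_pu w b hJ Vq hVq hcard h1 h2 cA cB hA hB hT hinv hD hcong y hy
  have hBne : ∀ y, (cB y : ℂ) ≠ 0 := fun y => Complex.ofReal_ne_zero.mpr (hB y).ne'
  have hwne : ∀ y, w (cB y : ℂ) ≠ 0 := fun y => (Valuation.ne_zero_iff w).mpr (hBne y)
  have hval : ∀ y, b y = y → w (cB (q • y) : ℂ) ^ 2 = (w (cB y : ℂ) ^ 2) ^ q ^ 2 := by
    intro y hy
    have h3 := (hfp y hy).val
    rw [map_div₀, map_pow, map_pow, map_pow] at h3
    rw [div_eq_one_iff_eq] at h3
    · exact h3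
    · exact pow_ne_zero _ (pow_ne_zero _ (hwne y))
  have hfix : ∀ k : ℕ, b (q ^ k • x) = q ^ k • x := by
    intro k
    rw [map_nsmul, hx]
  have hvk : ∀ k : ℕ, w (cB (q ^ k • x) : ℂ) ^ 2 = (w (cB x : ℂ) ^ 2) ^ q ^ (2 * k) := by
    intro k
    induction k with
    | zero => simp
    | succ k ih =>
      rw [show q ^ (k + 1) • x = q • (q ^ k • x) by rw [pow_succ', mul_smul], hval _ (hfix k), ih,
        ← pow_mul _ (q ^ (2 * k)), ← pow_add, Nat.mul_succ]
  have hw1 : w (cB x : ℂ) = 1 := by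
    rcases Nat.eq_zero_or_pos N with hN0 | hN0
    · exfalso
      rw [hN0, Nat.coprime_zero_right] at hqN
      omega
    · have h3 := Nat.ModEq.pow_totient hqN
      have h4 : q ^ N.totient • x = x := by
        have h5 : (q ^ N.totient) ≡ 1 [MOD N] := h3
        obtain ⟨m, hm⟩ : ∃ m, q ^ N.totient = 1 + N * m := by
          have h6 : 1 ≤ q ^ N.totient := Nat.one_le_pow _ _ (by omega)
          obtain ⟨m, hm⟩ := (Nat.modEq_iff_dvd' h6).mp h5.symm
          exact ⟨m, by omega⟩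
        rw [hm, add_smul, one_smul, mul_comm, mul_smul, hN, smul_zero, add_zero]
      have h5 := hvk N.totient
      rw [h4] at h5
      have h6 : 1 < q ^ (2 * N.totient) :=
        Nat.one_lt_pow (by have := Nat.totient_pos.mpr hN0; omega) hq
      have h7 := eq_one_of_pow (pow_ne_zero 2 (hwne x)) h6 h5.symm
      exact (pow_eq_one_iff_of_nonneg zero_le two_ne_zero).mp h7
  refine ⟨hw1, ?_⟩
  have h3 := hfp x hx
  unfold Pu at h3
  have h4 : (cB (q • x) : ℂ) ^ 2 - ((cB x : ℂ) ^ 2) ^ q ^ 2 =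
      ((cB (q • x) : ℂ) ^ 2 / ((cB x : ℂ) ^ 2) ^ q ^ 2 - 1) * ((cB x : ℂ) ^ 2) ^ q ^ 2 := by
    rw [sub_mul, one_mul, div_mul_cancel₀]
    exact pow_ne_zero _ (pow_ne_zero _ (hBne x))
  rw [h4, map_mul, map_pow, map_pow, hw1, one_pow, one_pow, mul_one]
  exact h3

end frob

end AR81
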