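import Mathlib

/-!
Products over free orbits, and the exact multiplication formula at a base level from the multiplication
formula at a higher level (positive real functions).
-/

open Finset

namespace AR81

section orb

variable {α : Type*} [Fintype α] [DecidableEq α]

/-- A transversal for a permutation all of whose cycles have length `J`. -/
theorem exists_transversal (β : Equiv.Perm α) {J : ℕ} (hJ : 0 < J) (h1 : ∀ t, (β ^ J) t = t)
    (h2 : ∀ j, 0 < j → j < J → ∀ t, (β ^ j) t ≠ t) :
    ∃ s : Finset α, J * s.card = Fintype.card α ∧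
      ∀ {M : Type} [CommMonoid M] (f : α → M), (∀ t, f (β t) = f t) →
        ∏ t, f t = (∏ t ∈ s, f t) ^ J := by
  classical
  -- the relation
  let r : Setoid α :=
    { r := fun t t' => ∃ j : ℕ, (β ^ j) t = t'
      iseqv :=
        { refl := fun t => ⟨0, by simp⟩
          symm := by
            rintro t t' ⟨j, rfl⟩
            refine ⟨J * (j + 1) - j, ?_⟩
            rw [← Equiv.Perm.mul_apply, ← pow_add]
            have e : J * (j + 1) - j + j = J * (j + 1) := by
              apply Nat.sub_add_cancel
              nlinarith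
            rw [e, pow_mul]
            have h3 : β ^ J = 1 := Equiv.ext h1
            rw [h3, one_pow]; rfl
          trans := by
            rintro t t' t'' ⟨j, rfl⟩ ⟨k, rfl⟩
            exact ⟨k + j, by rw [pow_add]; rfl⟩ } }
  have : Fintype (Quotient r) := Fintype.ofFinite _
  let out : Quotient r → α := Quotient.out
  have hout : ∀ ω, (Quotient.mk r (out ω)) = ω := fun ω => Quotient.out_eq ω
  have hoi : Function.Injective out := fun a b h => by rw [← hout a, ← hout b, h]
  -- the fibres
  have hfib : ∀ ω : Quotient r, (univ.filter fun t => Quotient.mk r t = ω) =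
      (range J).image fun j => (β ^ j) (out ω) := by
    intro ω
    ext t
    rw [mem_filter, mem_image]
    constructor
    · rintro ⟨-, ht⟩
      have h3 : r (out ω) t := Quotient.exact (by rw [hout, ht])
      obtain ⟨j, hj⟩ := h3
      refine ⟨j % J, mem_range.mpr (Nat.mod_lt _ hJ), ?_⟩
      have h4 : β ^ J = 1 := Equiv.ext h1
      rw [← hj]
      conv_rhs => rw [← Nat.mod_add_div j J, pow_add, pow_mul, h4, one_pow, mul_one]
    · rintro ⟨j, -, rfl⟩
      refine ⟨mem_univ _, ?_⟩
      rw [← hout ω]
      apply Quotient.sound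
      rw [hout ω]
      exact r.iseqv.symm ⟨j, rfl⟩
  have hinj : ∀ ω : Quotient r, Set.InjOn (fun j => (β ^ j) (out ω)) (range J : Finset ℕ) := by
    intro ω i hi j hj hij
    simp only [coe_range, Set.mem_Iio] at hi hj
    simp only at hij
    by_contra hne
    have key : ∀ i j : ℕ, i < j → j < J → (β ^ i) (out ω) = (β ^ j) (out ω) → False := by
      intro i j h3 h4 h5
      have e : j = (j - i) + i := by omega
      rw [e, pow_add, Equiv.Perm.mul_apply] at h5
      exact h2 (j - i) (by omega) (by omega) _ h5.symm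
    rcases Nat.lt_or_gt_of_ne hne with h3 | h3
    · exact key i j h3 hj hij
    · exact key j i h3 hi hij.symm
  have hcard : ∀ ω : Quotient r, (univ.filter fun t => Quotient.mk r t = ω).card = J := by
    intro ω
    rw [hfib ω, card_image_of_injOn (hinj ω), card_range]
  refine ⟨univ.image out, ?_, ?_⟩
  · rw [card_image_of_injective _ hoi, card_univ, ← card_univ (α := α)]
    have h3 := card_eq_sum_card_fiberwise (s := (univ : Finset α)) (t := (univ : Finset (Quotient r)))
      (f := fun t => Quotient.mk r t) (fun _ _ => mem_coe.mpr (mem_univ _))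
    rw [h3, sum_congr rfl fun ω _ => hcard ω, sum_const, card_univ, smul_eq_mul, mul_comm]
  · intro M _ f hf
    have hfj : ∀ (j : ℕ) t, f ((β ^ j) t) = f t := by
      intro j
      induction j with
      | zero => intro t; simp
      | succ j ih => intro t; rw [pow_succ', Equiv.Perm.mul_apply, hf, ih]
    rw [prod_image (fun a _ b _ h => hoi h), ← prod_pow,
      ← prod_fiberwise (s := univ) (g := fun t => Quotient.mk r t) (f := f)]
    refine prod_congr rfl fun ω _ => ?_
    rw [hfib ω, prod_image (fun a ha b hb h => hinj ω (by simpa using ha) (by simpa using hb) h)]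
    rw [prod_congr rfl fun j _ => hfj j (out ω), prod_const, card_range]

end orb

section mult

variable {T : Type*} [AddCommGroup T]

/-- **The exact multiplication formula at the base level.** -/
theorem base_mult (b : T ≃+ T) {q J : ℕ} (hJ : 0 < J) (Vq : Finset T)
    (hVq : ∀ t, t ∈ Vq ↔ q • t = 0) (hcard : Vq.card = q ^ 2)
    (h1 : ∀ t ∈ Vq, (b^[J]) t = t) (h2 : ∀ j, 0 < j → j < J → ∀ t ∈ Vq, t ≠ 0 → (b^[j]) t ≠ t)
    (cA cB : T → ℝ) (hA : ∀ x, 0 < cA x) (hB : ∀ x, 0 < cB x)
    (hT : ∀ x, b x = x → cA x = cB x ^ J) (hinv : ∀ x, (b^[J]) x = x → cA (b x) = cA x)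
    (hD : ∀ x, (b^[J]) x = x → cA (q • x) = ∏ t ∈ Vq, cA (x + t)) :
    ∃ s : Finset T, (∀ t ∈ s, t ∈ Vq) ∧ J * s.card + 1 = q ^ 2 ∧
      ∀ x, b x = x → cB (q • x) = cB x * ∏ t ∈ s, cA (x + t) := by
  classical
  let X := Vq.erase 0
  have hbV : ∀ t, t ∈ X → b t ∈ X := by
    intro t ht
    rw [mem_erase, hVq] at ht ⊢
    refine ⟨fun h0 => ht.1 ((map_eq_zero_iff b b.injective).mp h0), ?_⟩
    rw [← map_nsmul, ht.2, map_zero]
  have hbV' : ∀ t, t ∈ X → b.symm t ∈ X := by
    intro t ht
    rw [mem_erase, hVq] at ht ⊢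
    refine ⟨fun h0 => ht.1 ((map_eq_zero_iff b.symm b.symm.injective).mp h0), ?_⟩
    rw [← map_nsmul, ht.2, map_zero]
  let β : Equiv.Perm X :=
    { toFun := fun t => ⟨b t, hbV _ t.2⟩
      invFun := fun t => ⟨b.symm t, hbV' _ t.2⟩
      left_inv := fun t => Subtype.ext (by simp)
      right_inv := fun t => Subtype.ext (by simp) }
  have hβ : ∀ (j : ℕ) (t : X), (((β ^ j) t : X) : T) = (b^[j]) t := by
    intro j
    induction j with
    | zero => intro t; rfl
    | succ j ih =>
      intro t
      rw [pow_succ', Equiv.Perm.mul_apply, Function.iterate_succ_apply', ← ih]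
      rfl
  have h0V : (0 : T) ∈ Vq := by rw [hVq, smul_zero]
  obtain ⟨s, hs, hprod⟩ := exists_transversal β hJ
    (fun t => Subtype.ext (by rw [hβ]; exact h1 _ (mem_of_mem_erase t.2)))
    (fun j hj hj' t h3 => h2 j hj hj' t (mem_of_mem_erase t.2) (ne_of_mem_erase t.2)
      (by rw [← hβ, h3]))
  refine ⟨s.image (fun t : X => (t : T)), ?_, ?_, ?_⟩
  · intro t ht
    rw [mem_image] at ht
    obtain ⟨t', -, rfl⟩ := ht
    exact mem_of_mem_erase t'.2
  · rw [card_image_of_injective _ Subtype.val_injective, hs, Fintype.card_coe,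
      card_erase_of_mem h0V, hcard]
    have : 0 < q ^ 2 := by rw [← hcard]; exact card_pos.mpr ⟨0, h0V⟩
    omega
  · intro x hx
    have hxJ : ∀ j, (b^[j]) x = x := by
      intro j
      induction j with
      | zero => rfl
      | succ j ih => rw [Function.iterate_succ_apply', ih, hx]
    have hqx : b (q • x) = q • x := by rw [map_nsmul, hx]
    have hiter : ∀ (j : ℕ) (y z : T), (b^[j]) (y + z) = (b^[j]) y + (b^[j]) z := by
      intro j
      induction j with
      | zero => intro y z; rfl
      | succ j ih =>
        intro y z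
        rw [Function.iterate_succ_apply', ih, map_add, ← Function.iterate_succ_apply' b j y,
          ← Function.iterate_succ_apply' b j z]
    have h3 := hD x (hxJ J)
    rw [hT _ hqx, ← mul_prod_erase _ _ h0V, add_zero, hT x hx] at h3
    have h4 : ∏ t ∈ Vq.erase 0, cA (x + t) = (∏ t ∈ s, cA (x + (t : T))) ^ J := by
      rw [← hprod (fun t : X => cA (x + t))]
      · rw [← prod_coe_sort X (fun t => cA (x + t))]
      · intro t
        have h5 : (b^[J]) (x + (t : T)) = x + t := by
          rw [hiter, hxJ, h1 _ (mem_of_mem_erase t.2)]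
        have h6 := hinv _ h5
        rw [map_add, hx] at h6
        exact h6
    rw [h4, ← mul_pow] at h3
    rw [prod_image (fun a _ b _ h => Subtype.ext h)]
    exact (pow_left_inj₀ (hB _).le (mul_nonneg (hB _).le (prod_nonneg fun t _ => (hA _).le))
      hJ.ne').mp h3

end mult

end AR81
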